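import Pool.Agent.X103.SelfInvPoly

/-!
# MP_e6e7b2_al, Q1: self-inverting power series need not be Hessian nilpotent

For every `n ≥ 3` there is a self-inverting formal power series in `n` variables whose Hessian is
not nilpotent: `P = τ²` with `τ = u + (z₃² + … + z_n²) / (1 + v)`, `u = z₁ + i z₂`,
`v = z₁ - i z₂`.  On the other hand every self-inverting polynomial, in any number of variables, is
Hessian nilpotent.
-/

set_option autoImplicit false

namespace Pool.Agent.Results.MP_e6e7b2_al.NotHessianNilpotent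

open Pool.Agent.X103.SelfInv MvPowerSeries

variable (m : ℕ)

/-- The imaginary unit as a constant series. -/
noncomputable def io : PS (m + 3) := C Complex.I

lemma io_sq : io m * io m = -1 := by
  rw [io, ← map_mul, Complex.I_mul_I, map_neg, map_one]

noncomputable def α : Fin (m + 3) → PS (m + 3) := fun i => if i = 0 then 1 else if i = 1 then io m else 0
noncomputable def β : Fin (m + 3) → PS (m + 3) := fun i => if i = 0 then 1 else if i = 1 then -io m else 0
noncomputable def y : Fin (m + 3) → PS (m + 3) := fun i => if i = 0 then 0 else if i = 1 then 0 else X i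

noncomputable def u : PS (m + 3) := X 0 + io m * X 1
noncomputable def dd : PS (m + 3) := 1 + (X 0 - io m * X 1)
noncomputable def R : PS (m + 3) := (dd m)⁻¹
noncomputable def r : PS (m + 3) := ∑ i, y m i * y m i
noncomputable def τ : PS (m + 3) := u m + r m * R m
noncomputable def g : Fin (m + 3) → PS (m + 3) := fun i => α m i + 2 * y m i * R m - r m * R m ^ 2 * β m i
noncomputable def P : PS (m + 3) := τ m * τ m

lemma sum_split (f : Fin (m + 3) → PS (m + 3)) :
    ∑ i, f i = f 0 + f 1 + ∑ j : Fin (m + 1), f j.succ.succ := by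
  rw [Fin.sum_univ_succ, Fin.sum_univ_succ, ← add_assoc]; rfl

lemma αα : ∑ i, α m i * α m i = 0 := by
  rw [sum_split]
  simp [α, io_sq, Fin.succ_ne_zero, Fin.succ_succ_ne_one]

lemma ββ : ∑ i, β m i * β m i = 0 := by
  rw [sum_split]
  simp [β, io_sq, Fin.succ_succ_ne_one]

lemma αβ : ∑ i, α m i * β m i = 2 := by
  rw [sum_split]
  simp [α, β, io_sq, Fin.succ_succ_ne_one]
  norm_num

lemma αy : ∑ i, α m i * y m i = 0 := by
  rw [sum_split]
  simp [α, y, Fin.succ_succ_ne_one]

lemma βy : ∑ i, β m i * y m i = 0 := by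
  rw [sum_split]
  simp [β, y, Fin.succ_succ_ne_one]

lemma βy' (i : Fin (m + 3)) : β m i * y m i = 0 := by
  simp only [β, y]
  split_ifs <;> simp

lemma d_io (i : Fin (m + 3)) : pderiv ℂ i (io m) = 0 := pderiv_C

lemma d_X (i j : Fin (m + 3)) : pderiv ℂ i (X j : PS (m + 3)) = if i = j then 1 else 0 := by
  by_cases h : i = j
  · subst h; simp
  · rw [pderiv_X_of_ne (Ne.symm h), if_neg h]

lemma d_two (i : Fin (m + 3)) : pderiv ℂ i (2 : PS (m + 3)) = 0 := by
  have : (2 : PS (m + 3)) = C 2 := (map_ofNat C 2).symm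
  rw [this, pderiv_C]

lemma d_u (i : Fin (m + 3)) : pderiv ℂ i (u m) = α m i := by
  simp only [u, α, map_add, Derivation.leibniz, d_X, d_io, smul_eq_mul]
  by_cases h0 : i = 0
  · subst h0; simp
  · by_cases h1 : i = 1
    · subst h1; simp
    · simp [h0, h1]

lemma d_dd (i : Fin (m + 3)) : pderiv ℂ i (dd m) = β m i := by
  simp only [dd, β, map_add, map_sub, Derivation.leibniz, d_X, d_io, smul_eq_mul,
    Derivation.map_one_eq_zero]
  by_cases h0 : i = 0
  · subst h0; simp
  · by_cases h1 : i = 1
    · subst h1; simp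
    · simp [h0, h1]

lemma dd_const : constantCoeff (dd m) = 1 := by simp [dd]

lemma dd_R : dd m * R m = 1 := MvPowerSeries.mul_inv_cancel _ (by rw [dd_const]; exact one_ne_zero)

lemma R_ne : R m ≠ 0 := by
  intro h
  have := dd_R m
  rw [h, mul_zero] at this
  exact zero_ne_one this

lemma d_R (i : Fin (m + 3)) : pderiv ℂ i (R m) = -R m ^ 2 * β m i := by
  rw [R, pderiv_inv', d_dd]

lemma d_α (i j : Fin (m + 3)) : pderiv ℂ i (α m j) = 0 := by
  simp only [α]; split_ifs <;> simp [d_io]

lemma d_β (i j : Fin (m + 3)) : pderiv ℂ i (β m j) = 0 := by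
  simp only [β]; split_ifs <;> simp [d_io]

lemma d_y (i j : Fin (m + 3)) :
    pderiv ℂ i (y m j) = if i = j then (if i = 0 then 0 else if i = 1 then 0 else 1) else 0 := by
  simp only [y]
  by_cases h : i = j
  · subst h
    rw [if_pos rfl]
    split_ifs <;> simp
  · split_ifs <;> simp [d_X, h]

lemma d_r (i : Fin (m + 3)) : pderiv ℂ i (r m) = 2 * y m i := by
  rw [r, map_sum, Finset.sum_eq_single i]
  · rw [Derivation.leibniz, d_y, if_pos rfl]
    simp only [y, smul_eq_mul]
    split_ifs <;> ring
  · intro j _ hj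
    rw [Derivation.leibniz, d_y, if_neg (Ne.symm hj)]; simp
  · intro h; exact absurd (Finset.mem_univ i) h

lemma d_τ (i : Fin (m + 3)) : pderiv ℂ i (τ m) = g m i := by
  rw [τ, map_add, Derivation.leibniz, d_u, d_r, d_R, g]
  simp only [smul_eq_mul]; ring

lemma d_P (i : Fin (m + 3)) : pderiv ℂ i (P m) = 2 * τ m * g m i := by
  rw [P, Derivation.leibniz, d_τ]
  simp only [smul_eq_mul]; ring

lemma r_eq : ∑ i, y m i * y m i = r m := rfl

lemma gg : ∑ i, g m i * g m i = 0 := by
  have : ∀ i, g m i * g m i = α m i * α m i + 4 * R m ^ 2 * (y m i * y m i)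
      + (r m * R m ^ 2) ^ 2 * (β m i * β m i) + 4 * R m * (α m i * y m i)
      - 2 * (r m * R m ^ 2) * (α m i * β m i) - 4 * R m * (r m * R m ^ 2) * (β m i * y m i) := by
    intro i; simp only [g]; ring
  simp only [this, Finset.sum_add_distrib, Finset.sum_sub_distrib, ← Finset.mul_sum, αα, ββ, αβ,
    αy, βy, r_eq]
  ring

lemma d_g (i : Fin (m + 3)) : pderiv ℂ i (g m i) =
    2 * R m * (if i = 0 then 0 else if i = 1 then 0 else 1)
      + 2 * r m * R m ^ 3 * (β m i * β m i) := by
  simp only [g, map_add, map_sub, Derivation.leibniz, d_α, d_β, d_R, d_y, d_r, d_two, smul_eq_mul,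
    Derivation.leibniz_pow, nsmul_eq_mul, if_true]
  have := βy' m i
  push_cast
  linear_combination (-4 * R m ^ 2) * this

lemma lap : ∑ i, pderiv ℂ i (g m i) = 2 * (m + 1) * R m := by
  simp only [d_g, Finset.sum_add_distrib, ← Finset.mul_sum, ββ, mul_zero, add_zero]
  rw [sum_split]
  simp [Fin.succ_succ_ne_one]
  ring

lemma trace_P : (Hes (P m)).trace = 4 * (m + 1) * τ m * R m := by
  have : ∀ i, (Hes (P m)) i i = 2 * τ m * pderiv ℂ i (g m i) + 2 * (g m i * g m i) := by
    intro i
    show pderiv ℂ i (pderiv ℂ i (P m)) = _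
    rw [d_P, Derivation.leibniz, Derivation.leibniz, d_two, d_τ]
    simp only [smul_eq_mul]; ring
  rw [Matrix.trace]
  simp only [Matrix.diag_apply, this, Finset.sum_add_distrib, ← Finset.mul_sum, lap, gg]
  ring

lemma τ_const : constantCoeff (τ m) = 0 := by
  simp only [τ, u, r, map_add, map_mul, map_sum, constantCoeff_X]
  have : ∀ i, constantCoeff (y m i) = 0 := by
    intro i; simp only [y]; split_ifs <;> simp
  simp [this]

lemma τ_ne : τ m ≠ 0 := by
  intro h
  have h1 := d_τ m 0
  rw [h, map_zero] at h1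
  have h2 := congrArg (constantCoeff (σ := Fin (m + 3)) (R := ℂ)) h1
  have hy : ∀ i, constantCoeff (y m i) = 0 := by
    intro i; simp only [y]; split_ifs <;> simp
  have hr : constantCoeff (r m) = 0 := by simp [r, hy]
  simp [g, α, hy, hr] at h2

theorem not_HN : ¬ HN (P m) := by
  intro h
  have h1 := Matrix.isNilpotent_trace_of_isNilpotent h
  rw [trace_P] at h1
  have h2 := h1.eq_zero
  have h3 : (4 * (m + 1) : PS (m + 3)) ≠ 0 := by
    have : (4 * (m + 1) : PS (m + 3)) = C (4 * (m + 1) : ℂ) := by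
      simp only [map_mul, map_add, map_one, map_natCast]
      congr 1
    rw [this]
    intro h4
    have h5 := congrArg (constantCoeff (σ := Fin (m + 3)) (R := ℂ)) h4
    rw [constantCoeff_C, map_zero] at h5
    have : (4 * (m + 1) : ℂ) ≠ 0 := by
      have : (m + 1 : ℂ) ≠ 0 := Nat.cast_add_one_ne_zero m
      simp [this]
    exact this h5
  exact (mul_ne_zero (mul_ne_zero h3 (τ_ne m)) (R_ne m)) h2

lemma P_ord : 2 ≤ (P m).order := by
  have h1 : (1 : ℕ∞) ≤ (τ m).order := by
    rw [one_le_order_iff_constCoeff_eq_zero]; exact τ_const m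
  refine le_trans ?_ le_order_mul
  calc (2 : ℕ∞) = 1 + 1 := by norm_num
    _ ≤ _ := add_le_add h1 h1

lemma g_const (i : Fin (m + 3)) : constantCoeff (g m i) = constantCoeff (α m i) := by
  have hy : ∀ i, constantCoeff (y m i) = 0 := by
    intro i; simp only [y]; split_ifs <;> simp
  have hr : constantCoeff (r m) = 0 := by simp [r, hy]
  simp [g, hy, hr]

lemma P_adm : Admissible (P m) := by
  refine ⟨P_ord m, 2, ?_⟩
  have h1 : ∀ i j, ((Hes (P m)).map (constantCoeff (σ := Fin (m + 3)) (R := ℂ))) i j =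
      2 * constantCoeff (α m i) * constantCoeff (α m j) := by
    intro i j
    show constantCoeff (pderiv ℂ i (pderiv ℂ j (P m))) = _
    rw [d_P, Derivation.leibniz, Derivation.leibniz, d_two, d_τ]
    have h2 : constantCoeff (2 : PS (m + 3)) = (2 : ℂ) := map_ofNat _ 2
    simp only [smul_eq_mul, map_add, map_mul, τ_const, g_const, h2]
    ring
  refine Matrix.ext fun i k => ?_
  rw [pow_two, Matrix.mul_apply]
  have h2 : ∀ j, ((Hes (P m)).map (constantCoeff (σ := Fin (m + 3)) (R := ℂ))) i j *
      ((Hes (P m)).map (constantCoeff (σ := Fin (m + 3)) (R := ℂ))) j k =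
      (4 * constantCoeff (α m i) * constantCoeff (α m k)) * constantCoeff (α m j * α m j) := by
    intro j; rw [h1, h1, map_mul]; ring
  simp only [h2, ← Finset.mul_sum, ← map_sum, αα]
  simp

lemma inv_grad (c : ℂ) (j : Fin (m + 3)) :
    subst (fun i => X i + c • pderiv ℂ i (P m)) (pderiv ℂ j (P m)) = pderiv ℂ j (P m) := by
  have hs : HasSubst (fun i => (X i : PS (m + 3)) + c • pderiv ℂ i (P m)) := by
    apply hasSubst_of_constantCoeff_zero
    intro i
    have h1 : constantCoeff (pderiv ℂ i (P m)) = 0 := by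
      rw [d_P, map_mul, map_mul, τ_const]; simp
    rw [map_add, constantCoeff_X, zero_add, smul_eq_C_mul, map_mul, h1, mul_zero]
  set φ := substAlgHom (R := ℂ) hs with hφ
  obtain ⟨k, hk⟩ : ∃ k : PS (m + 3), k = C c * (2 * τ m) := ⟨_, rfl⟩
  have hX : ∀ i, φ (X i) = X i + k * g m i := by
    intro i
    rw [hφ, substAlgHom_X, d_P, smul_eq_C_mul, hk]; ring
  have hio : φ (io m) = io m := by
    have : io m = algebraMap ℂ (PS (m + 3)) Complex.I := rfl
    rw [this, AlgHom.commutes]
  rw [← substAlgHom_apply hs, ← hφ]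
  have h2 : φ 2 = 2 := map_ofNat φ 2
  have hI := io_sq m
  have hg0 : g m 0 = 1 - r m * R m ^ 2 := by simp [g, α, β, y]
  have hg1 : g m 1 = io m + io m * (r m * R m ^ 2) := by simp [g, α, β, y]; ring
  have hdR := dd_R m
  have hu : φ (u m) = u m - 2 * k * (r m * R m ^ 2) := by
    rw [u, map_add, map_mul, hX, hX, hio, hg0, hg1]
    linear_combination (k + k * (r m * R m ^ 2)) * hI
  have hdd : φ (dd m) = dd m * (1 + 2 * k * R m) := by
    rw [dd, map_add, map_sub, map_mul, hX, hX, hio, hg0, hg1, map_one]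
    have h3 : (1 + (X 0 - io m * X 1)) * R m = 1 := hdR
    linear_combination (-(k + k * (r m * R m ^ 2))) * hI - 2 * k * h3
  have hy : ∀ i, φ (y m i) = y m i * (1 + 2 * k * R m) := by
    intro i
    by_cases h0 : i = 0
    · subst h0; simp [y]
    · by_cases h1 : i = 1
      · subst h1; simp [y]
      · have e1 : y m i = X i := by simp [y, h0, h1]
        have e2 : g m i = 2 * X i * R m := by simp [g, α, β, e1, h0, h1]
        rw [e1, hX, e2]; ring
  have hr : φ (r m) = r m * (1 + 2 * k * R m) ^ 2 := by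
    rw [r, map_sum, Finset.sum_mul]
    refine Finset.sum_congr rfl fun i _ => ?_
    rw [map_mul, hy]; ring
  have hE : φ (dd m) * φ (R m) = 1 := by rw [← map_mul, hdR, map_one]
  rw [hdd] at hE
  have hE2 : (1 + 2 * k * R m) * φ (R m) = R m := by
    linear_combination (R m) * hE - (1 + 2 * k * R m) * φ (R m) * hdR
  have hα : ∀ i, φ (α m i) = α m i := by
    intro i; simp only [α]; split_ifs <;> simp [hio]
  have hβ : ∀ i, φ (β m i) = β m i := by
    intro i; simp only [β]; split_ifs <;> simp [hio]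
  have hg : ∀ i, φ (g m i) = g m i := by
    intro i
    simp only [g, map_add, map_sub, map_mul, map_pow, hα, hβ, hy, hr, h2]
    linear_combination (2 * y m i - r m * β m i * ((1 + 2 * k * R m) * φ (R m) + R m)) * hE2
  have hτ : φ (τ m) = τ m := by
    rw [τ, map_add, map_mul, hu, hr]
    linear_combination (r m * (1 + 2 * k * R m)) * hE2
  rw [d_P, map_mul, map_mul, h2, hτ, hg]

theorem P_self : SelfInverting (P m) :=
  ⟨P_adm m, isInversionPair_of_invariant (P_ord m) (inv_grad m)⟩

/-- **Main theorem.**  (1) Every self-inverting polynomial, in any number of variables, is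
Hessian nilpotent.  (2) For every `n ≥ 3` there is a self-inverting formal power series in `n`
variables which is not Hessian nilpotent. -/
theorem result :
    (∀ (n : ℕ) (P : MvPolynomial (Fin n) ℂ), SelfInverting (P : PS n) → HN (P : PS n)) ∧
    (∀ n : ℕ, 3 ≤ n → ∃ P : PS n, SelfInverting P ∧ ¬ HN P) := by
  refine ⟨fun n P h => polynomial_HN h, fun n hn => ?_⟩
  obtain ⟨m, rfl⟩ := Nat.exists_eq_add_of_le' hn
  exact ⟨P m, P_self m, not_HN m⟩

end Pool.Agent.Results.MP_e6e7b2_al.NotHessianNilpotent
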